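import Mathlib

open Set

namespace Pool.Agent.Results.MP_eab5ac_an.No

/-- `u` is a positive classical solution of
`u'' + (n-1)/r u' + l f(r,u) = 0` on `(0,1)`, `u'(0) = u(1) = 0`, with `l > 0`. -/
def PosSol (n : ℝ) (f : ℝ → ℝ → ℝ) (l : ℝ) (u : ℝ → ℝ) : Prop :=
  0 < l ∧ ContDiff ℝ 2 u ∧
  (∀ r ∈ Ioo (0 : ℝ) 1, deriv (deriv u) r + (n - 1) / r * deriv u r + l * f r (u r) = 0) ∧
  deriv u 0 = 0 ∧ u 1 = 0 ∧ ∀ r ∈ Ico (0 : ℝ) 1, 0 < u r

noncomputable def ev (c : List ℝ) (r : ℝ) : ℝ := ∑ i ∈ Finset.range 15, c.getD i 0 * r ^ i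

lemma ev_smooth (c : List ℝ) (k : ℕ) : ContDiff ℝ k (ev c) := by
  unfold ev
  fun_prop

lemma ev_d (c : List ℝ) (r : ℝ) :
    HasDerivAt (ev c) (∑ i ∈ Finset.range 15, c.getD i 0 * (i * r ^ (i - 1))) r :=
  HasDerivAt.fun_sum fun i _ => (hasDerivAt_pow i r).const_mul _

lemma ev_d1 (c : List ℝ) :
    deriv (ev c) = fun r => ∑ i ∈ Finset.range 15, c.getD i 0 * (i * r ^ (i - 1)) :=
  funext fun r => (ev_d c r).deriv

lemma ev_d2 (c : List ℝ) (r : ℝ) : deriv (deriv (ev c)) r =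
    ∑ i ∈ Finset.range 15, c.getD i 0 * (i * (((i - 1 : ℕ) : ℝ) * r ^ (i - 1 - 1))) := by
  rw [ev_d1]
  exact (HasDerivAt.fun_sum fun i _ => ((hasDerivAt_pow (i - 1) r).const_mul _).const_mul _).deriv

def c1 : List ℝ := [306000000, 0, -5464839380, 36703626960, -150636389904, 414325831920, -803613088278, 1129635699192, -1159759941340, 864792912984, -461442656220, 172925483913, -45044650287, 8146325115, -874314675]

def c2 : List ℝ := [306000000, 0, -5786300520, 38862663840, -159208038990, 437402517552, -847210882518, 1188667351872, -1217081665800, 903856753800, -479206423332, 177770683818, -45644670162, 8146325115, -874314675]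

def cH : List ℝ := [-1622766840, 25908442560, -182684121620, 767866859760, -2136033431532, 4135478723376, -5715537545718, 5707951120872, -4145565363940, 2207508435132, -874793564736, 260139082203, -55845008037, 8146325115, -874314675]

lemma pos1 (r s : ℝ) (hr : 0 ≤ r) (hs : 0 < s) (h : s = 1 - r) : 0 < ev c1 r := by
  have : ev c1 r = s * (306000000 * r ^ 0 * s ^ 29 + 9180000000 * r ^ 1 * s ^ 28 +
      127645160620 * r ^ 2 * s ^ 27 + 1126048124320 * r ^ 3 * s ^ 26 +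
      7160582252376 * r ^ 4 * s ^ 25 + 35084774948496 * r ^ 5 * s ^ 24 +
      137758378543422 * r ^ 6 * s ^ 23 + 444505096287720 * r ^ 7 * s ^ 22 +
      1199215299586148 * r ^ 8 * s ^ 21 + 2739035158261688 * r ^ 9 * s ^ 20 +
      5345704049719488 * r ^ 10 * s ^ 19 + 8976820550280401 * r ^ 11 * s ^ 18 +
      13035777777877400 * r ^ 12 * s ^ 17 + 16426377617571864 * r ^ 13 * s ^ 16 +
      17997701028234228 * r ^ 14 * s ^ 15 + 17158423112956908 * r ^ 15 * s ^ 14 +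
      14226371718140376 * r ^ 16 * s ^ 13 + 10239733849756600 * r ^ 17 * s ^ 12 +
      6378119270698084 * r ^ 18 * s ^ 11 + 3421911456977286 * r ^ 19 * s ^ 10 +
      1571015870617336 * r ^ 20 * s ^ 9 + 611776065129112 * r ^ 21 * s ^ 8 +
      199694126688030 * r ^ 22 * s ^ 7 + 53774835676068 * r ^ 23 * s ^ 6 +
      11688181492260 * r ^ 24 * s ^ 5 + 1988051803920 * r ^ 25 * s ^ 4 +
      252672623840 * r ^ 26 * s ^ 3 + 22267961105 * r ^ 27 * s ^ 2 +
      1185470520 * r ^ 28 * s ^ 1 + 27368640 * r ^ 29 * s ^ 0) := by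
    subst h
    simp only [ev, Finset.sum_range_succ, Finset.sum_range_zero, c1, List.getD_cons_succ,
      List.getD_cons_zero]
    ring
  rw [this]
  positivity

lemma pos2 (r s : ℝ) (hr : 0 ≤ r) (hs : 0 < s) (h : s = 1 - r) : 0 < ev c2 r := by
  have : ev c2 r = s * (306000000 * r ^ 0 * s ^ 29 + 9180000000 * r ^ 1 * s ^ 28 +
      127323699480 * r ^ 2 * s ^ 27 + 1119206249280 * r ^ 3 * s ^ 26 +
      7088792288130 * r ^ 4 * s ^ 25 + 34589704008132 * r ^ 5 * s ^ 24 +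
      135239177969532 * r ^ 6 * s ^ 23 + 434452395349440 * r ^ 7 * s ^ 22 +
      1166604715219788 * r ^ 8 * s ^ 21 + 2651056871761584 * r ^ 9 * s ^ 20 +
      5145308286126372 * r ^ 10 * s ^ 19 + 8587416819301866 * r ^ 11 * s ^ 18 +
      12385555813899450 * r ^ 12 * s ^ 17 + 15488684885286009 * r ^ 13 * s ^ 16 +
      16825960061136072 * r ^ 14 * s ^ 15 + 15887353563424944 * r ^ 15 * s ^ 14 +
      13028852961065736 * r ^ 16 * s ^ 13 + 9260673473788380 * r ^ 17 * s ^ 12 +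
      5685007326629904 * r ^ 18 * s ^ 11 + 2998581327400932 * r ^ 19 * s ^ 10 +
      1349135591210550 * r ^ 20 * s ^ 9 + 512712849859002 * r ^ 21 * s ^ 8 +
      162394186273020 * r ^ 22 * s ^ 7 + 42090328545408 * r ^ 23 * s ^ 6 +
      8699216883084 * r ^ 24 * s ^ 5 + 1379937427596 * r ^ 25 * s ^ 4 +
      158050538100 * r ^ 26 * s ^ 3 + 11695424130 * r ^ 27 * s ^ 2 +
      430371630 * r ^ 28 * s ^ 1 + 1484145 * r ^ 29 * s ^ 0) := by
    subst h
    simp only [ev, Finset.sum_range_succ, Finset.sum_range_zero, c2, List.getD_cons_succ,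
      List.getD_cons_zero]
    ring
  rw [this]
  positivity

lemma posH (r s : ℝ) (hr : 0 ≤ r) (hs : 0 ≤ s) (h : s = 1 - r) :
    0 ≤ ∑ i ∈ Finset.range 15, cH.getD i 0 * (i * r ^ (i - 1)) := by
  have : ∑ i ∈ Finset.range 15, cH.getD i 0 * (i * r ^ (i - 1)) = 25908442560 * r ^ 0 * s ^ 29 + 385976591000 * r ^ 1 * s ^ 28 +
      2592117447920 * r ^ 2 * s ^ 27 + 10213335083952 * r ^ 3 * s ^ 26 +
      25498774453152 * r ^ 4 * s ^ 25 + 39672164423892 * r ^ 5 * s ^ 24 +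
      32216253981912 * r ^ 6 * s ^ 23 + 2313330883864 * r ^ 7 * s ^ 22 +
      6439239034228 * r ^ 8 * s ^ 21 + 119880288240804 * r ^ 9 * s ^ 20 +
      320576518044601 * r ^ 10 * s ^ 19 + 457597651607551 * r ^ 11 * s ^ 18 +
      408375714474702 * r ^ 12 * s ^ 17 + 237314435696442 * r ^ 13 * s ^ 16 +
      116966307151980 * r ^ 14 * s ^ 15 + 116774941690836 * r ^ 15 * s ^ 14 +
      156081718779896 * r ^ 16 * s ^ 13 + 146826355562432 * r ^ 17 * s ^ 12 +
      92175881879718 * r ^ 18 * s ^ 11 + 40762352719946 * r ^ 19 * s ^ 10 +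
      15036159488012 * r ^ 20 * s ^ 9 + 6394465599912 * r ^ 21 * s ^ 8 +
      3050872877364 * r ^ 22 * s ^ 7 + 1128478818012 * r ^ 23 * s ^ 6 +
      259036867908 * r ^ 24 * s ^ 5 + 34839624820 * r ^ 25 * s ^ 4 +
      5592062905 * r ^ 26 * s ^ 3 + 1728346815 * r ^ 27 * s ^ 2 +
      252130710 * r ^ 28 * s ^ 1 + 2227290 * r ^ 29 * s ^ 0 := by
    subst h
    simp only [Finset.sum_range_succ, Finset.sum_range_zero, cH, List.getD_cons_succ,
      List.getD_cons_zero]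
    push_cast
    ring
  rw [this]
  positivity

theorem result : ∃ (n : ℝ) (f : ℝ → ℝ → ℝ), n = 3 ∧ 1 < n ∧
    ContDiff ℝ 1 (fun q : ℝ × ℝ => f q.1 q.2) ∧
    (∀ r ∈ Icc (0 : ℝ) 1, ∀ u : ℝ, 0 ≤ u → deriv (fun t => f t u) r ≤ 0) ∧
    ∃ (l₁ l₂ : ℝ) (u₁ u₂ : ℝ → ℝ), PosSol n f l₁ u₁ ∧ PosSol n f l₂ u₂ ∧ u₁ 0 = u₂ 0 ∧
      l₁ ≠ l₂ := by
  refine ⟨3, fun r u => u - ev cH r, rfl, by norm_num,
    contDiff_snd.sub ((ev_smooth cH 1).comp contDiff_fst), fun r hr u _ => ?_,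
    17, 18, ev c1, ev c2, ⟨by norm_num, ev_smooth c1 2, fun r hr => ?_, ?_, ?_, fun r hr => ?_⟩,
    ⟨by norm_num, ev_smooth c2 2, fun r hr => ?_, ?_, ?_, fun r hr => ?_⟩, ?_, by norm_num⟩
  · rw [((ev_d cH r).const_sub u).deriv, neg_nonpos]
    exact posH r _ hr.1 (sub_nonneg.2 hr.2) rfl
  · have := hr.1.ne'
    rw [ev_d2, ev_d1]
    simp only [ev, Finset.sum_range_succ, Finset.sum_range_zero, c1, cH, List.getD_cons_succ,
      List.getD_cons_zero]
    push_cast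
    field_simp
    ring
  · rw [ev_d1]
    simp [Finset.sum_range_succ, c1]
  · simp only [ev, Finset.sum_range_succ, Finset.sum_range_zero, c1, List.getD_cons_succ,
      List.getD_cons_zero]
    norm_num
  · exact pos1 r _ hr.1 (sub_pos.2 hr.2) rfl
  · have := hr.1.ne'
    rw [ev_d2, ev_d1]
    simp only [ev, Finset.sum_range_succ, Finset.sum_range_zero, c2, cH, List.getD_cons_succ,
      List.getD_cons_zero]
    push_cast
    field_simp
    ring
  · rw [ev_d1]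
    simp [Finset.sum_range_succ, c2]
  · simp only [ev, Finset.sum_range_succ, Finset.sum_range_zero, c2, List.getD_cons_succ,
      List.getD_cons_zero]
    norm_num
  · exact pos2 r _ hr.1 (sub_pos.2 hr.2) rfl
  · simp [ev, Finset.sum_range_succ, c1, c2]

end Pool.Agent.Results.MP_eab5ac_an.No
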